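import Pool.Agent.T9h45.CP.Final
import Pool.Agent.T9h45.HD.Main

/-!
# Graphs in which all the edges lie in the same number of triangles
-/

set_option autoImplicit false

namespace Pool.T9h45.CP

open Finset Classical Pool.T9h45.HY

variable {V : Type} [Fintype V]

/-- neighbours -/
noncomputable def nb (G : SimpleGraph V) (v : V) : Finset V := univ.filter fun w => G.Adj v w

theorem mem_nb {G : SimpleGraph V} {v w : V} : w ∈ nb G v ↔ G.Adj v w := by
  rw [nb, mem_filter]
  exact ⟨fun h => h.2, fun h => ⟨mem_univ _, h⟩⟩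

/-- common neighbours -/
theorem inter_le {V : Type} (A B C : Finset V) {D : ℕ} (hB : #B ≤ D) : #(A ∩ B) + #(B ∩ C) ≤ D + #(A ∩ C) := by
  have h1 : #((A ∩ B) ∪ (B ∩ C)) + #((A ∩ B) ∩ (B ∩ C)) = #(A ∩ B) + #(B ∩ C) :=
    card_union_add_card_inter _ _
  have h2 : #((A ∩ B) ∪ (B ∩ C)) ≤ #B := card_le_card (by
    intro x hx
    rw [mem_union, mem_inter, mem_inter] at hx
    rcases hx with h | h
    · exact h.2
    · exact h.1)
  have h3 : #((A ∩ B) ∩ (B ∩ C)) ≤ #(A ∩ C) := card_le_card (by
    intro x hx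
    rw [mem_inter, mem_inter, mem_inter] at hx
    rw [mem_inter]
    exact ⟨hx.1.1, hx.2.2⟩)
  omega

theorem reach_common {G : SimpleGraph V} {D lam : ℕ} (hD : ∀ v, #(nb G v) ≤ D)
    (hl : ∀ u v, G.Adj u v → #(nb G u ∩ nb G v) = lam) (h3 : 2 * D < 3 * lam) {v : V}
    (hv : (nb G v).Nonempty) {x : V} (hx : G.Reachable v x) :
    2 * lam ≤ D + #(nb G v ∩ nb G x) := by
  obtain ⟨w⟩ := hx
  have hbase : 2 * lam ≤ D + #(nb G v ∩ nb G v) := by
    obtain ⟨u, hu⟩ := hv
    have h1 := hl v u (mem_nb.1 hu)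
    have h2 : #(nb G v ∩ nb G u) ≤ #(nb G v) := card_le_card inter_subset_left
    rw [inter_self]
    have := hD v
    omega
  have key : ∀ (a b : V) (w : G.Walk a b), 2 * lam ≤ D + #(nb G v ∩ nb G a) →
      2 * lam ≤ D + #(nb G v ∩ nb G b) := by
    intro a b w
    induction w with
    | nil => exact fun h => h
    | cons h p ih =>
      rename_i a c b
      intro ha
      apply ih
      have h1 := inter_le (nb G v) (nb G a) (nb G c) (hD a)
      rw [hl a c h] at h1
      have h2 : 0 < #(nb G v ∩ nb G c) := by omega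
      obtain ⟨z, hz⟩ := card_pos.1 h2
      rw [mem_inter, mem_nb, mem_nb] at hz
      have h4 := inter_le (nb G v) (nb G z) (nb G c) (hD z)
      rw [hl v z hz.1, hl z c hz.2.symm] at h4
      omega
  exact key v x w hbase

/-- size of a component -/
theorem comp_size {G : SimpleGraph V} {D lam : ℕ} (hD : ∀ v, #(nb G v) ≤ D)
    (hl : ∀ u v, G.Adj u v → #(nb G u ∩ nb G v) = lam) (h3 : 2 * D < 3 * lam) {v : V}
    (hv : (nb G v).Nonempty) (S : Finset V) (hS : ∀ x ∈ S, G.Reachable v x) :
    #S * (2 * lam - D) ≤ D * D := by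
  have h1 : #S * (2 * lam - D) ≤ ∑ x ∈ S, #(nb G v ∩ nb G x) := by
    rw [← smul_eq_mul]
    refine card_nsmul_le_sum _ _ _ fun x hx => ?_
    have := reach_common hD hl h3 hv (hS x hx)
    omega
  have h2 : ∑ x ∈ S, #(nb G v ∩ nb G x) ≤ ∑ w ∈ nb G v, #(nb G w) := by
    have e1 : ∀ x, #(nb G v ∩ nb G x) = ∑ w ∈ nb G v, if G.Adj w x then 1 else 0 := by
      intro x
      rw [← card_filter]
      congr 1
      ext w
      rw [mem_inter, mem_filter, mem_nb, mem_nb]
      constructor
      · rintro ⟨h1, h2⟩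
        exact ⟨h1, h2.symm⟩
      · rintro ⟨h1, h2⟩
        exact ⟨h1, h2.symm⟩
    rw [sum_congr rfl fun x _ => e1 x, sum_comm]
    refine sum_le_sum fun w _ => ?_
    rw [← card_filter]
    refine card_le_card fun x hx => ?_
    rw [mem_filter] at hx
    exact mem_nb.2 hx.2
  have h4 : ∑ w ∈ nb G v, #(nb G w) ≤ D * D := by
    refine le_trans (sum_le_card_nsmul _ _ D fun w _ => hD w) ?_
    rw [smul_eq_mul]
    exact Nat.mul_le_mul_right _ (hD v)
  exact h1.trans (h2.trans h4)

/-- the number of adjacent pairs of neighbours -/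
theorem pairs_count {G : SimpleGraph V} [DecidableRel G.Adj] {D lam : ℕ}
    (hD : ∀ v, #(nb G v) ≤ D) (hl : ∀ u v, G.Adj u v → #(nb G u ∩ nb G v) = lam) (v : V) :
    (((G.neighborFinset v) ×ˢ (G.neighborFinset v)).filter
      (fun a => G.Adj a.1 a.2)).card ≤ D * lam := by
  have e0 : G.neighborFinset v = nb G v := by
    ext w
    rw [SimpleGraph.mem_neighborFinset, mem_nb]
  rw [e0, card_filter, sum_product]
  have e1 : ∀ a ∈ nb G v, (∑ b ∈ nb G v, if G.Adj a b then 1 else 0) = lam := by
    intro a ha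
    rw [← card_filter, ← hl v a (mem_nb.1 ha)]
    congr 1
    ext w
    rw [mem_filter, mem_inter, mem_nb, mem_nb]
  rw [sum_congr rfl e1, sum_const, smul_eq_mul]
  exact Nat.mul_le_mul_right _ (hD v)

theorem edge_const (ε : ℝ) (hε : 0 < ε) :
    ∃ D₀ : ℕ, ∀ (V : Type) [Fintype V] (G : SimpleGraph V) (D p lam : ℕ), D₀ ≤ D →
      (∀ v, cn (fun w => G.Adj v w) ≤ D) →
      (∀ u v, G.Adj u v → cn (fun w => G.Adj u w ∧ G.Adj v w) = lam) →
      (1 / 2 + ε) * (D : ℝ) ≤ p → Lb G p (D + 2 * p) := by
  obtain ⟨η, hη⟩ : ∃ η : ℝ, η = min (ε / 4) (1 / 100) := ⟨_, rfl⟩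
  have hη0 : 0 < η := by rw [hη]; exact lt_min (by linarith) (by norm_num)
  have hηε : η ≤ ε / 4 := by rw [hη]; exact min_le_left _ _
  have hη1 : η ≤ 1 / 100 := by rw [hη]; exact min_le_right _ _
  obtain ⟨D₁, hD₁⟩ := Pool.Agent.TH104.LS.sparse_main η hη0 (by linarith)
  refine ⟨max D₁ 10, ?_⟩
  intro V _ G D p lam hD₀ hdeg htri hp
  have hD1 : D₁ ≤ D := le_trans (le_max_left _ _) hD₀
  have hD4 : 10 ≤ D := le_trans (le_max_right _ _) hD₀
  have hD4r : (10 : ℝ) ≤ D := by exact_mod_cast hD4
  have hp2 : (D : ℝ) + 2 * (ε * D) ≤ 2 * p := by linarith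
  have hεD : 0 ≤ ε * D := by positivity
  have hp1 : 1 ≤ p := by
    have : (1 : ℝ) ≤ p := by linarith
    exact_mod_cast this
  have hDn : ∀ v, #(nb G v) ≤ D := hdeg
  have hln : ∀ u v, G.Adj u v → #(nb G u ∩ nb G v) = lam := by
    intro u v huv
    rw [← htri u v huv, cn]
    congr 1
    ext w
    simp [mem_nb]
  by_cases hA : (lam : ℝ) ≤ (1 - η) * D
  · refine Lb_of_TotLab (by omega) (hD₁ V G D p hD1 (fun v => ?_) (fun v => ?_) ?_)
    · rw [deg_eq]
      exact hdeg v
    · have h1 := pairs_count hDn hln v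
      have h2 : ((((G.neighborFinset v) ×ˢ (G.neighborFinset v)).filter
        (fun a => G.Adj a.1 a.2)).card : ℝ) ≤ D * lam := by exact_mod_cast h1
      refine h2.trans ?_
      have h3 : (D : ℝ) * lam ≤ D * ((1 - η) * D) := mul_le_mul_of_nonneg_left hA (by linarith)
      linarith [h3, sq (D : ℝ)]
    · have : 0 ≤ η / 2 ^ 22 := by positivity
      have h3 : (1 / 2 - η / 2 ^ 22) * (D : ℝ) ≤ (1 / 2 + ε) * D := by
        apply mul_le_mul_of_nonneg_right _ (by linarith)
        linarith
      linarith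
  · push Not at hA
    have h3r : 2 * (D : ℝ) < 3 * lam := by nlinarith
    have h3 : 2 * D < 3 * lam := by exact_mod_cast h3r
    refine Pool.T9h45.HD.dense_comp G hp1 (fun v => hdeg v) fun c => ?_
    induction c using SimpleGraph.ConnectedComponent.ind with
    | h v =>
      by_cases hv : (nb G v).Nonempty
      · have h4 := comp_size hDn hln h3 hv
          (univ.filter fun x => x ∈ (G.connectedComponentMk v).supp) (by
            intro x hx
            rw [mem_filter] at hx
            exact (SimpleGraph.ConnectedComponent.exact hx.2).symm)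
        have h5 : (G.connectedComponentMk v).supp.ncard =
            #(univ.filter fun x => x ∈ (G.connectedComponentMk v).supp) := by
          rw [← Set.ncard_coe_finset]
          congr 1
          ext x
          simp
        rw [h5]
        obtain ⟨N, hN⟩ : ∃ N, N = #(univ.filter fun x => x ∈ (G.connectedComponentMk v).supp) :=
          ⟨_, rfl⟩
        rw [← hN] at h4 ⊢
        have h6 : D ≤ 2 * lam := by omega
        have h4r : (N : ℝ) * (2 * lam - D) ≤ D * D := by
          have h7 : ((2 * lam - D : ℕ) : ℝ) = 2 * lam - D := by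
            rw [Nat.cast_sub h6]
            push_cast
            ring
          rw [← h7]
          exact_mod_cast h4
        have hN0 : (0 : ℝ) ≤ N := by positivity
        have h8 : (N : ℝ) * ((1 - 2 * η) * D) ≤ D * D := by
          refine le_trans (mul_le_mul_of_nonneg_left ?_ hN0) h4r
          linarith
        have h9 : (N : ℝ) * (1 - 2 * η) ≤ D := by
          have h10 : ((N : ℝ) * (1 - 2 * η)) * D ≤ D * D := by linarith
          exact le_of_mul_le_mul_right h10 (by linarith)
        have h11 : (N : ℝ) ≤ (1 + 4 * η) * D := by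
          have h12 : (N : ℝ) * (1 - 2 * η) * (1 + 4 * η) ≤ D * (1 + 4 * η) :=
            mul_le_mul_of_nonneg_right h9 (by linarith)
          have h13 : (N : ℝ) ≤ N * ((1 - 2 * η) * (1 + 4 * η)) := by
            have h14 : 1 ≤ (1 - 2 * η) * (1 + 4 * η) := by nlinarith
            nlinarith
          linarith
        constructor
        · have : (N : ℝ) ≤ 2 * p := by nlinarith
          exact_mod_cast this
        · have : 4 * (N : ℝ) ≤ 4 * D + 4 + p := by nlinarith
          exact_mod_cast this
      · have h5 : (G.connectedComponentMk v).supp.ncard ≤ 1 := by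
          rw [Set.ncard_le_one_iff]
          have h6 : ∀ x, x ∈ (G.connectedComponentMk v).supp → x = v := by
            intro x hx
            obtain ⟨w⟩ := (SimpleGraph.ConnectedComponent.exact hx).symm
            cases w with
            | nil => rfl
            | cons h p => exact absurd ⟨_, mem_nb.2 h⟩ hv
          intro a b ha hb
          rw [h6 a ha, h6 b hb]
        constructor
        · omega
        · omega

end Pool.T9h45.CP
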