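import Pool.Agent.T9h45.CP.Spec
import Pool.Agent.TH104.LS.F

/-!
# The Havet-Yu conjecture for vertex-transitive graphs, from the pieces
-/

set_option autoImplicit false

namespace Pool.T9h45.CP

open Finset Classical Pool.T9h45.HY

/-- ordered pairs of nonadjacent (or equal) neighbours -/
noncomputable def nonA {V : Type} [Fintype V] (G : SimpleGraph V) (v : V) : Finset (V × V) :=
  (univ : Finset (V × V)).filter (fun a => G.Adj v a.1 ∧ G.Adj v a.2 ∧ ¬ G.Adj a.1 a.2)

theorem cn_split {V : Type} [Fintype V] (P Q : V → Prop) :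
    cn P = cn (fun w => P w ∧ Q w) + cn (fun w => P w ∧ ¬ Q w) := by
  have h1 : cn (fun w => P w ∧ Q w) = ((univ.filter P).filter Q).card := by
    unfold cn
    congr 1
    ext w
    simp
  have h2 : cn (fun w => P w ∧ ¬ Q w) = ((univ.filter P).filter fun w => ¬ Q w).card := by
    unfold cn
    congr 1
    ext w
    simp
  rw [h1, h2, card_filter_add_card_filter_not, cn]

theorem cn_congr {V : Type} [Fintype V] {P Q : V → Prop} (h : ∀ w, P w ↔ Q w) : cn P = cn Q := by
  have : P = Q := funext fun w => propext (h w)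
  rw [this]

theorem cn_zero {V : Type} [Fintype V] {P : V → Prop} (h : cn P = 0) (w : V) : ¬ P w := by
  intro hw
  unfold cn at h
  have h2 := card_eq_zero.1 h
  have h3 : w ∈ (univ.filter P) := mem_filter.2 ⟨mem_univ _, hw⟩
  rw [h2] at h3
  exact absurd h3 (notMem_empty _)

theorem nonA_inv {V : Type} [Fintype V] (G : SimpleGraph V) (φ : G ≃g G) (u : V) :
    (nonA G (φ u)).card = (nonA G u).card := by
  symm
  refine card_bij (fun a _ => (φ a.1, φ a.2)) ?_ ?_ ?_
  · intro a ha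
    rw [nonA, mem_filter] at ha ⊢
    refine ⟨mem_univ _, φ.map_adj_iff.2 ha.2.1, φ.map_adj_iff.2 ha.2.2.1, fun h => ?_⟩
    exact ha.2.2.2 (φ.map_adj_iff.1 h)
  · intro a _ b _ h
    have h1 := φ.injective (congrArg Prod.fst h)
    have h2 := φ.injective (congrArg Prod.snd h)
    exact Prod.ext h1 h2
  · intro b hb
    obtain ⟨x, hx⟩ := φ.surjective b.1
    obtain ⟨y, hy⟩ := φ.surjective b.2
    refine ⟨(x, y), ?_, Prod.ext hx hy⟩
    rw [nonA, mem_filter] at hb ⊢
    rw [← hx, ← hy] at hb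
    refine ⟨mem_univ _, φ.map_adj_iff.1 hb.2.1, φ.map_adj_iff.1 hb.2.2.1, fun h => ?_⟩
    exact hb.2.2.2 (φ.map_adj_iff.2 h)

theorem deg_eq {V : Type} [Fintype V] (G : SimpleGraph V) [DecidableRel G.Adj] (v : V) :
    G.degree v = cn (fun w => G.Adj v w) := by
  rw [cn, ← SimpleGraph.card_neighborFinset_eq_degree]
  congr 1
  ext w
  simp

theorem split_nonA {V : Type} [Fintype V] (G : SimpleGraph V) [DecidableRel G.Adj] (v : V)
    (dp : DecidablePred fun a : V × V => G.Adj a.1 a.2) :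
    (((G.neighborFinset v) ×ˢ (G.neighborFinset v)).filter
      (fun a => G.Adj a.1 a.2)).card + (nonA G v).card = G.degree v * G.degree v := by
  have h1 : nonA G v = ((G.neighborFinset v) ×ˢ (G.neighborFinset v)).filter
      (fun a => ¬ G.Adj a.1 a.2) := by
    ext a
    simp only [nonA, mem_filter, mem_product, SimpleGraph.mem_neighborFinset, mem_univ, true_and]
    tauto
  rw [h1, ← SimpleGraph.card_neighborFinset_eq_degree, ← card_product]
  exact card_filter_add_card_filter_not _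

theorem Lb_of_TotLab {V : Type} [Fintype V] {G : SimpleGraph V} {p N : ℕ} (hN : 1 ≤ N)
    (h : Pool.Agent.TH104.HY.TotLab G p (N - 1)) : Lb G p N := by
  obtain ⟨fV, fE, h1, h2, h3, h4, h5⟩ := h
  refine ⟨fV, fun v w => fE s(v, w), ?_, ?_, ?_, h3, ?_, h5⟩
  · intro v
    have := h1 v
    omega
  · intro v w hvw
    have := h2 s(v, w) hvw
    show fE s(v, w) < N
    omega
  · intro v w _
    show fE s(v, w) = fE s(w, v)
    rw [Sym2.eq_swap]
  · intro u v w huv huw hne
    exact h4 u v w huv huw hne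

/-- the degree and the numbers of a class -/
theorem deg_split {V : Type} [Fintype V] (G : SimpleGraph V) (cl : V → V) (v : V) :
    cn (fun w => G.Adj v w) + cn (fun w => cl w = cl v ∧ w ≠ v ∧ ¬ G.Adj v w) + 1 =
      cn (fun w => cl w = cl v) + cE G cl v := by
  have e1 := cn_split (fun w => G.Adj v w) (fun w => cl w = cl v)
  have e2 := cn_split (fun w => cl w = cl v) (fun w => G.Adj v w)
  have e4 : cn (fun w => cl w = cl v ∧ G.Adj v w) = cn (fun w => G.Adj v w ∧ cl w = cl v) :=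
    cn_congr fun w => and_comm
  have e5 : cE G cl v = cn (fun w => G.Adj v w ∧ ¬ cl w = cl v) := rfl
  have e3 : cn (fun w => cl w = cl v ∧ ¬ G.Adj v w) =
      cn (fun w => cl w = cl v ∧ w ≠ v ∧ ¬ G.Adj v w) + 1 := by
    have h1 := cn_split (fun w => cl w = cl v ∧ ¬ G.Adj v w) (fun w => w ≠ v)
    have h2 : cn (fun w => (cl w = cl v ∧ ¬ G.Adj v w) ∧ ¬ w ≠ v) = 1 := by
      have h3 : cn (fun w => (cl w = cl v ∧ ¬ G.Adj v w) ∧ ¬ w ≠ v) = cn (fun w => w = v) := by
        refine cn_congr fun w => ?_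
        constructor
        · rintro ⟨-, h⟩
          exact not_not.1 h
        · rintro rfl
          exact ⟨⟨rfl, G.loopless.irrefl _⟩, fun h => h rfl⟩
      rw [h3, cn, card_eq_one]
      refine ⟨v, ?_⟩
      ext w
      simp
    have h4 : cn (fun w => (cl w = cl v ∧ ¬ G.Adj v w) ∧ w ≠ v) =
        cn (fun w => cl w = cl v ∧ w ≠ v ∧ ¬ G.Adj v w) := by
      refine cn_congr fun w => ?_
      tauto
    omega
  omega

/-- **Piece I.** -/
theorem final (hC : SClique) (hS : SStruct) (hM : SMatch) (hP : SPairs) (ε : ℝ) (hε : 0 < ε) :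
    ∃ D₀ : ℕ, ∀ (V : Type) [Fintype V] (G : SimpleGraph V) (D p : ℕ), D₀ ≤ D →
      (∀ u v, ∃ φ : G ≃g G, φ u = v) → (∀ v, cn (fun w => G.Adj v w) = D) →
      (1 / 2 + ε) * (D : ℝ) ≤ p → Lb G p (D + 2 * p) := by
  obtain ⟨η, hη⟩ : ∃ η : ℝ, η = min (ε / 4) (1 / 1600) := ⟨_, rfl⟩
  have hη0 : 0 < η := by rw [hη]; exact lt_min (by linarith) (by norm_num)
  have hηε : η ≤ ε / 4 := by rw [hη]; exact min_le_left _ _
  have hη1 : η ≤ 1 / 1600 := by rw [hη]; exact min_le_right _ _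
  have hd0 : 0 < η ^ 2 := by positivity
  have hd1 : η ^ 2 ≤ 1 := by nlinarith
  obtain ⟨D₁, hD₁⟩ := Pool.Agent.TH104.LS.sparse_main (η ^ 2) hd0 hd1
  obtain ⟨D₂, hD₂⟩ := hP
  obtain ⟨D₃, hD₃⟩ : ∃ D₃ : ℕ, 4 / ε ≤ D₃ := exists_nat_ge _
  refine ⟨max (max D₁ D₂) (max D₃ 2000), ?_⟩
  intro V _ G D p hD₀ hvt hdeg hp
  have hD1 : D₁ ≤ D := le_trans (le_trans (le_max_left _ _) (le_max_left _ _)) hD₀
  have hD2 : D₂ ≤ D := le_trans (le_trans (le_max_right _ _) (le_max_left _ _)) hD₀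
  have hD3 : D₃ ≤ D := le_trans (le_trans (le_max_left _ _) (le_max_right _ _)) hD₀
  have hD4 : 2000 ≤ D := le_trans (le_trans (le_max_right _ _) (le_max_right _ _)) hD₀
  have hD3r : 4 / ε ≤ (D : ℝ) := le_trans hD₃ (by exact_mod_cast hD3)
  have hD4r : (2000 : ℝ) ≤ D := by exact_mod_cast hD4
  have hεD : 4 ≤ ε * D := by
    rw [div_le_iff₀ hε] at hD3r
    linarith
  have hp2 : (D : ℝ) + 2 * (ε * D) ≤ 2 * p := by linarith
  have hpD : D ≤ 2 * p := by
    have : (D : ℝ) ≤ 2 * p := by linarith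
    exact_mod_cast this
  obtain ⟨h, hh⟩ : ∃ h : ℕ, h = ⌈η * D⌉₊ := ⟨_, rfl⟩
  have hh1 : (h : ℝ) ≤ η * D + 1 := by
    rw [hh]
    exact (Nat.ceil_lt_add_one (by positivity)).le
  have hh2 : η * D ≤ (h : ℝ) := by
    rw [hh]
    exact Nat.le_ceil _
  by_cases hA : ∀ v, ((((G.neighborFinset v) ×ˢ (G.neighborFinset v)).filter
      (fun a => G.Adj a.1 a.2)).card : ℝ) ≤ (1 - η ^ 2) * (D : ℝ) ^ 2
  · refine Lb_of_TotLab (by omega) (hD₁ V G D p hD1 (fun v => ?_) ?_ ?_)
    · rw [deg_eq, hdeg v]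
    · intro v
      convert hA v
    · have : 0 ≤ η ^ 2 / 2 ^ 22 := by positivity
      have h3 : (1 / 2 - η ^ 2 / 2 ^ 22) * (D : ℝ) ≤ (1 / 2 + ε) * D := by
        apply mul_le_mul_of_nonneg_right _ (by linarith)
        linarith
      linarith
  · push Not at hA
    obtain ⟨v₀, hv₀⟩ := hA
    have : Nonempty V := ⟨v₀⟩
    have hsp := split_nonA G v₀ (fun a => inferInstance)
    rw [deg_eq, hdeg v₀] at hsp
    have hspr : ((((G.neighborFinset v₀) ×ˢ (G.neighborFinset v₀)).filter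
      (fun a => G.Adj a.1 a.2)).card : ℝ) + ((nonA G v₀).card : ℝ) = D * D := by
      exact_mod_cast hsp
    have hn0 : ((nonA G v₀).card : ℝ) ≤ (h : ℝ) ^ 2 := by
      have h3 : (η * D) ^ 2 ≤ (h : ℝ) ^ 2 := by
        apply pow_le_pow_left₀ (by positivity) hh2
      nlinarith
    have hn : ∀ v, (nonA G v).card ≤ h ^ 2 := by
      intro v
      obtain ⟨φ, hφ⟩ := hvt v₀ v
      rw [← hφ, nonA_inv]
      exact_mod_cast hn0
    have h6 : 6 * h + 1 ≤ D := by
      have : 6 * (h : ℝ) + 1 ≤ D := by nlinarith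
      exact_mod_cast this
    obtain ⟨cl, n, e, ν, c1, c2, c3, c4, c5, c6⟩ := hS V G D h hvt hdeg h6 hn
    rcases Nat.eq_zero_or_pos ν with hν | hν
    · -- cliques
      have hds := deg_split G cl v₀
      rw [hdeg, c3, c1, c2, hν] at hds
      refine hC V G cl D e p (fun v => (hdeg v).le) ?_ ?_ ?_ ?_
      · intro u v huv hcl
        by_contra hcon
        have h3 := c3 u
        rw [hν] at h3
        exact cn_zero h3 v ⟨hcl.symm, huv.symm, hcon⟩
      · intro v
        rw [c1]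
        omega
      · have : 10 * (h : ℝ) ≤ D := by nlinarith
        have h10 : 10 * h ≤ D := by exact_mod_cast this
        omega
      · have h3 : (D : ℝ) + 2 * h + 2 ≤ 2 * p := by nlinarith
        have h4 : D + 2 * h + 2 ≤ 2 * p := by exact_mod_cast h3
        omega
    · -- matchings
      obtain ⟨σ, s1, s2, s3, s4⟩ := hM V G cl n ν (n / 4) hν c1 c3 (by omega)
      have h800 : 800 * h ≤ D := by
        have : 800 * (h : ℝ) ≤ D := by nlinarith
        exact_mod_cast this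
      exact hD₂ V G cl σ D h n e p hD2 h800 c1 (fun v => (c2 v).le) c4 c5 c6 s1 s2 s3 s4 hpD

end Pool.T9h45.CP
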