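import Pool.Agent.T9h45.HY.PLarge

/-!
# Specification: the Havet-Yu conjecture for vertex-transitive graphs and `p ≥ (1/2 + ε) D`

THEOREM (final, piece I).  For all `ε > 0` there is `D₀` such that every finite vertex-transitive
graph `G` of degree `D ≥ D₀` has a `(p,1)`-total labelling of span `D + 2p - 1` for all
`p ≥ (1/2 + ε) D`.

If the number of adjacent pairs in a neighbourhood is at most `(1 - d) D²` this is the file
`TH104/LS` (`sparse_main`).  Otherwise the vertices fall into classes of equal size, close to `D + 1`,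
which are nearly cliques (piece E).  If the classes are cliques use the explicit theorem `SClique`
(pieces A, B, C, D).  If not, the complement of every class has a matching with `n / 4` edges
(piece F); the matched pairs and the single vertices are the *atoms*; the atoms get random types
(pieces G, H).
`Lb G p N`: total labelling with labels `< N` (see `Pool.Agent.T9h45.HY.PLarge`).
-/

set_option autoImplicit false

namespace Pool.T9h45.CP

open Finset Classical Pool.T9h45.HY

variable {V : Type} [Fintype V]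

/-- the number of `w` with `P w` -/
noncomputable def cn {V : Type} [Fintype V] (P : V → Prop) : ℕ := (univ.filter P).card

/-- number of vertices of the class of `v` on the low side `S` -/
noncomputable def cA (S : V → Prop) (cl : V → V) (v : V) : ℕ := cn fun w => S w ∧ cl w = cl v

/-- number of vertices of the class of `v` on the high side -/
noncomputable def cB (S : V → Prop) (cl : V → V) (v : V) : ℕ := cn fun w => ¬ S w ∧ cl w = cl v

/-- number of neighbours in other classes -/
noncomputable def cE (G : SimpleGraph V) (cl : V → V) (v : V) : ℕ :=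
  cn fun w => G.Adj v w ∧ cl w ≠ cl v

/-- number of neighbours in other classes and on the other side -/
noncomputable def cO (G : SimpleGraph V) (S : V → Prop) (cl : V → V) (v : V) : ℕ :=
  cn fun w => G.Adj v w ∧ cl w ≠ cl v ∧ ¬ (S w ↔ S v)

/-- **Piece A.**  Take `S` minimizing
`Ψ(S) = 4 * #{(x, y) | S x, ¬ S y, G.Adj x y, cl x ≠ cl y} + Σ_{classes} (a - b)²`
(integers; `a, b` the numbers of vertices of the class with and without `S`).  Moving one vertex `x`
from `S` to the other side changes `Ψ` by `4 (cE x - 2 cO x) + 4 - 4 (a - b) ≥ 0`; exchanging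
`x` and `y` of one class changes `Ψ` by `4 (cE x - 2 cO x) + 4 (cE y - 2 cO y)` (`x y` is no edge
between different classes). -/
def SPart : Prop := ∀ (V : Type) [Fintype V] (G : SimpleGraph V) (cl : V → V), ∃ S : V → Prop,
  (∀ x y, S x → ¬ S y → cl x = cl y → 2 * (cO G S cl x + cO G S cl y) ≤ cE G cl x + cE G cl y) ∧
  (∀ x, S x → 2 * cO G S cl x + cA S cl x ≤ cE G cl x + cB S cl x + 1) ∧
  (∀ y, ¬ S y → 2 * cO G S cl y + cB S cl y ≤ cE G cl y + cA S cl y + 1)

/-- **Piece B** (strong colouring with parts of different sizes; everything happens inside `S`).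
Parts `V_i` = classes restricted to `S`, `a_i` = size.  Take a partial colouring (coloured vertices
of `V_i` have different colours `< a_i`; adjacent vertices of different parts have different colours)
with the maximum number of coloured vertices; let `v ∈ V_1` be uncoloured, `α < a_1` a colour missing
in `V_1`.  For every other part `i` in which `α` occurs let `u_i` be its vertex of colour `α`, and
let `W_i` be the set of all `w ∈ V_i` which are not neighbours of `v` and such that `w` is
uncoloured or its colour does not occur on the neighbours (in other parts) of `u_i`; so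
`|W_i| ≥ a_i - 2 d ≥ 2 d`.  Haxell's theorem (`Pool.Agent.H931R2.Haxell.finite`, `S := Fin (2 d)`
embedded in the `W_i`; `d = 0` is trivial) gives `t_i ∈ W_i`, pairwise nonadjacent.  Recolour: `v` and
all `t_i` get `α`, `u_i` gets the old colour of `t_i` (nothing if `t_i` was uncoloured).  This is a
partial colouring with one more coloured vertex: the `u_i` are pairwise nonadjacent as they had the
same colour. -/
def SStrong : Prop := ∀ (V : Type) [Fintype V] (G : SimpleGraph V) (cl : V → V) (S : V → Prop)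
  (d : ℕ), (∀ v, S v → cn (fun w => S w ∧ G.Adj v w ∧ cl w ≠ cl v) ≤ d) →
  (∀ v, S v → 4 * d ≤ cn (fun w => S w ∧ cl w = cl v)) →
  ∃ f : V → ℕ, (∀ v, S v → f v < cn (fun w => S w ∧ cl w = cl v)) ∧
    (∀ u v, S u → S v → u ≠ v → (cl u = cl v ∨ G.Adj u v) → f u ≠ f v)

/-- **Piece C** (Galvin with preferences; `Pool.Agent.TH559.LE.galvin`, used in the same way in
`Pool/Agent/T9h45/HD/Gal.lean`, `clique_core`).  The cross edges `x y` (`S x`, `¬ S y`) have the lists
`[f x, D - f y)`.  At every vertex the edges to other classes are preferred to those to the own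
class, and among those to the own class the ones with larger label `f` at the other end are
preferred (ties and the other ones by an injective numbering of the vertices).  Edges `x y` inside
a class: at most `cO x + (cB - 1 - f y)` preferred ones at `x`, `cO y + (cA - 1 - f x)` at `y`.
Other edges: at most `cO x - 1` and `cO y - 1`. -/
def SGal : Prop := ∀ (V : Type) [Fintype V] (G : SimpleGraph V) (cl : V → V) (S : V → Prop)
  (D : ℕ) (f : V → ℕ), (∀ v, S v → f v < cA S cl v) → (∀ v, ¬ S v → f v < cB S cl v) →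
  (∀ u v, (S u ↔ S v) → u ≠ v → cl u = cl v → f u ≠ f v) →
  (∀ x y, S x → ¬ S y → cl x = cl y → cO G S cl x + cO G S cl y + cA S cl x + cB S cl x ≤ D + 1) →
  (∀ x y, S x → ¬ S y → cl x ≠ cl y → G.Adj x y →
    cA S cl x + cB S cl y + cO G S cl x + cO G S cl y ≤ D + 2) →
  ∃ c : V → V → ℕ, (∀ x y, G.Adj x y → S x → ¬ S y → f x ≤ c x y ∧ c x y + f y < D) ∧
    (∀ x y z, G.Adj x y → G.Adj x z → S x → ¬ S y → ¬ S z → y ≠ z → c x y ≠ c x z) ∧
    (∀ x y z, G.Adj z x → G.Adj z y → ¬ S z → S x → S y → x ≠ y → c x z ≠ c y z)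

/-- The theorem on partitions into large cliques. -/
def SClique : Prop := ∀ (V : Type) [Fintype V] (G : SimpleGraph V) (cl : V → V) (D s p : ℕ),
  (∀ v, cn (fun w => G.Adj v w) ≤ D) → (∀ u v, u ≠ v → cl u = cl v → G.Adj u v) →
  (∀ v, D + 1 ≤ cn (fun w => cl w = cl v) + s) → 10 * s ≤ D → D + 2 * s + 2 ≤ 2 * p →
  Lb G p (D + 2 * p)

/-- **Piece D.**  `cA + cB = |C|` and `|C| + cE v ≤ D + 1` (a clique), so `cE ≤ s`, and (A) gives the two
hypotheses of (C) [for the second one add the two single-vertex inequalities: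
`2 (cO x + cO y) ≤ cE x + cE y + 2 - (a - b) + (a' - b') ≤ 2 D + 4 - 2 a - 2 b'`], and
`b ≤ a + s + 1`, `a ≤ b + s + 1`, so `a, b ≥ D / 2 - s ≥ 4 s` and (B) applies to `S` and to `¬ S` with
`d = s`.  The edges inside `S` (inside `¬ S`): degree at most `a - 1 + cE v - cO v ≤ D / 2 + s ≤ p - 1`
since `2 a ≤ D + 2 - 2 cO v` by (A); `Pool.Q6.CI.vizing` gives `p` labels.  Finally
`Pool.T9h45.HD.assemble` (file `Pool/Agent/T9h45/HD/Asm.lean`) with `t = t' = 0`. -/
def SPieceD : Prop := SPart → SStrong → SGal → SClique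

/-- **Piece E** (structure of dense vertex-transitive graphs).  A neighbour `u` of `v` is *strong*
if `|N(u) ∩ N(v)| ≥ D - h`; all but at most `h` neighbours of `v` are strong.  Put `u ≈ v` if
`|N(u) ∩ N(v)| ≥ 2 h + 1`.  Then there is a common neighbour strong for both, so
`|N(u) ∩ N(v)| ≥ D - 2 h`; so `≈` is transitive (`6 h + 1 ≤ D`), an equivalence relation invariant
under automorphisms.  So the three numbers do not depend on `v`.  A class contains `v` and its strong
neighbours, so `n ≥ D - h + 1`, `e ≤ h`, and double counting `n (D - 2 h) ≤ Σ_{u ≈ v} |N(u) ∩ N(v)|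
≤ Σ_{w ∈ N(v)} |N(w)| = D²` gives `n ≤ D + 4 h`.  (`cl v` = a representative of the class.) -/
def SStruct : Prop := ∀ (V : Type) [Fintype V] [Nonempty V] (G : SimpleGraph V) (D h : ℕ),
  (∀ u v, ∃ φ : G ≃g G, φ u = v) → (∀ v, cn (fun w => G.Adj v w) = D) → 6 * h + 1 ≤ D →
  (∀ v, ((univ : Finset (V × V)).filter
    (fun a => G.Adj v a.1 ∧ G.Adj v a.2 ∧ ¬ G.Adj a.1 a.2)).card ≤ h ^ 2) →
  ∃ (cl : V → V) (n e ν : ℕ), (∀ v, cn (fun w => cl w = cl v) = n) ∧ (∀ v, cE G cl v = e) ∧
    (∀ v, cn (fun w => cl w = cl v ∧ w ≠ v ∧ ¬ G.Adj v w) = ν) ∧ e ≤ h ∧ n ≤ D + 4 * h ∧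
    D + 1 ≤ n + h

/-- **Piece F.**  For every class `C` there is a set of exactly `μ` disjoint nonadjacent pairs: take
such a set with the maximum number `≤ μ` of pairs; if it has less than `μ` pairs, the set `U` of
the other vertices of `C` has more than `n / 2` elements and is a clique; every `u ∈ U` has `ν`
nonneighbours in `C \ U`, and every `w ∈ C \ U` has at most `ν - 1` nonneighbours in `U` (one
nonneighbour is its partner), so `ν |U| ≤ (ν - 1) |C \ U|`, a contradiction.  `σ` exchanges the
two elements of the pairs and fixes all the other vertices.  (One can also work with all the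
classes at once, or with permutations `σ` from the start.) -/
def SMatch : Prop := ∀ (V : Type) [Fintype V] (G : SimpleGraph V) (cl : V → V) (n ν μ : ℕ),
  1 ≤ ν → (∀ v, cn (fun w => cl w = cl v) = n) →
  (∀ v, cn (fun w => cl w = cl v ∧ w ≠ v ∧ ¬ G.Adj v w) = ν) → 4 * μ ≤ n →
  ∃ σ : V → V, (∀ v, σ (σ v) = v) ∧ (∀ v, cl (σ v) = cl v) ∧ (∀ v, ¬ G.Adj v (σ v)) ∧
    (∀ v, cn (fun w => cl w = cl v ∧ σ w ≠ w) = 2 * μ)

/-- **Piece G** (random types for atoms).  `π v` is the atom of `v`.  Let `Γ` be the graph of the atoms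
(`q ≠ r` adjacent if there is an edge between them), `B q` = the neighbours of `q` in `Γ` with two
vertices.  `Pool.Agent.TH104.HY.partition2` for `Γ` with `K = 2000`, `x = 1/1000`, degree bound `D1`
and `s := s1` gives types `t` of the atoms.  A vertex `v` has at most
`⌊(1+x) D1/K⌋ + ⌊(1+x) s1/K⌋ ≤ w := ⌊(1+x) (101/100) D / 2000⌋` neighbours of every type, and the atoms
of a type can be coloured greedily with `⌊(1+x) D1/K⌋ + 1 ≤ k := ⌊(1+x) (4/5) D / 2000⌋ + 1` colours
(`order_colour` of `TH104/HY/D.lean`, or `exists_pos`/greedy).  Then `Pool.Agent.TH104.HY.structB`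
with `m = 1000`, `q = 100`: its hypotheses H1-H4 hold for `D ≥ D₀` as
`899 * 0.8 < 799 * 1.01`; `(1.001) (202 * 0.8 + 1799 * 1.01) / 2000 < 0.991`;
`1.001 (1000 * 0.8 + 2001 * 1.01) / 2000 < 1.42 < 1.5`; `1.001 * 201 * 1.01 / 2000 < 1 / 2`. -/
def SAtoms : Prop := ∃ D₀ : ℕ, ∀ (V Q : Type) [Fintype V] [Fintype Q] (G : SimpleGraph V)
  (π : V → Q) (D D1 s1 p : ℕ), D₀ ≤ D → (∀ v w, G.Adj v w → π v ≠ π w) →
  (∀ q, cn (fun v => π v = q) ≤ 2) →
  (∀ q, cn (fun r => r ≠ q ∧ ∃ v w, π v = q ∧ π w = r ∧ G.Adj v w) ≤ D1) →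
  (∀ q, cn (fun r => (r ≠ q ∧ ∃ v w, π v = q ∧ π w = r ∧ G.Adj v w) ∧
    cn (fun v => π v = r) = 2) ≤ s1) →
  s1 ≤ D1 → D ≤ 10 * s1 → 5 * D1 ≤ 4 * D → 100 * (D1 + s1) ≤ 101 * D → D ≤ 2 * p →
  Lb G p (D + 2 * p)

/-- The theorem on near-cliques with matchings in the complement. -/
def SPairs : Prop := ∃ D₀ : ℕ, ∀ (V : Type) [Fintype V] (G : SimpleGraph V) (cl σ : V → V)
  (D h n e p : ℕ), D₀ ≤ D → 800 * h ≤ D → (∀ v, cn (fun w => cl w = cl v) = n) →
  (∀ v, cE G cl v ≤ e) → e ≤ h → n ≤ D + 4 * h → D + 1 ≤ n + h →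
  (∀ v, σ (σ v) = v) → (∀ v, cl (σ v) = cl v) → (∀ v, ¬ G.Adj v (σ v)) →
  (∀ v, cn (fun w => cl w = cl v ∧ σ w ≠ w) = 2 * (n / 4)) → D ≤ 2 * p →
  Lb G p (D + 2 * p)

/-- **Piece H.**  `Q` = the orbits `{v, σ v}` (e.g. `Quotient` of the setoid `u = v ∨ u = σ v`, or
`π v = {v, σ v} : Finset V`), `D1 = n - n / 4 + 2 e`, `s1 = n / 4 + 2 e`: the class of an atom consists
of `n / 4` pairs and `n - 2 (n / 4)` single atoms; there are at most `2 e` adjacent atoms in
other classes. -/
def SPieceH : Prop := SAtoms → SPairs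

end Pool.T9h45.CP
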